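import Pool.Agent.Lib.BFD.C0
import Pool.Agent.Lib.BFD.C1
import Pool.Agent.Lib.BFD.C2
import Pool.Agent.Lib.BFD.C3
import Pool.Agent.Lib.BFD.C4
import Pool.Agent.Lib.BFD.C5
import Pool.Agent.Lib.BFD.C6
import Pool.Agent.Lib.BFD.C7
import Pool.Agent.Lib.BFD.C8
import Pool.Agent.Lib.BFD.C9
import Pool.Agent.Lib.BFD.C10
import Pool.Agent.Lib.BFD.C11
import Pool.Agent.Lib.BFD.C12
import Pool.Agent.Lib.BFD.C13
import Pool.Agent.Lib.BFD.C14
import Pool.Agent.Lib.BFD.C15
import Pool.Agent.Lib.BFD.C16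
import Pool.Agent.Lib.BFD.C17
import Pool.Agent.Lib.BFD.C18
import Pool.Agent.Lib.BFC.SliceFar

/-!
# The far zone: the trees of all slices (generated), the slice theorems
-/

set_option autoImplicit false

open Pool.Agent.Lib.BFC

namespace Pool.Agent.BFD

open Pool.Agent.BFC

theorem ok0 : S0.ok = true := by decide +kernel

theorem bd0 : S0.bd = true := by decide +kernel

theorem tree0 : ∀ cs ∈ rootsT 2, ∃ T, walkC (leafOK S0) T cs = true := by
  rw [rootsT_two]
  simp only [List.forall_mem_cons]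
  exact ⟨c0_0, c0_1, c0_2, c0_3, c0_4, c0_5, c0_6, c0_7, c0_8, c0_9, c0_10, c0_11, c0_12, c0_13, c0_14, c0_15, c0_16, c0_17, c0_18, c0_19, c0_20, c0_21, c0_22, c0_23, c0_24, c0_25, c0_26, c0_27, c0_28, c0_29, c0_30, c0_31, List.forall_mem_nil _⟩

theorem far0 {l : ℝ} (h1 : 0 / 1024 ≤ l) (h2 : l ≤ 13 / 1024) :
    P187w.FAR l (BMM.chord 0 13 11863619 11788328 l) (25 / 1024) (0 / 1024) := by
  have h := slice_far ok0 bd0 tree0 (l := l) (by simpa [S0] using h1) (by simpa [S0] using h2)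
  simpa [S0] using h

theorem ok1 : S1.ok = true := by decide +kernel

theorem bd1 : S1.bd = true := by decide +kernel

theorem tree1 : ∀ cs ∈ rootsT 2, ∃ T, walkC (leafOK S1) T cs = true := by
  rw [rootsT_two]
  simp only [List.forall_mem_cons]
  exact ⟨c1_0, c1_1, c1_2, c1_3, c1_4, c1_5, c1_6, c1_7, c1_8, c1_9, c1_10, c1_11, c1_12, c1_13, c1_14, c1_15, c1_16, c1_17, c1_18, c1_19, c1_20, c1_21, c1_22, c1_23, c1_24, c1_25, c1_26, c1_27, c1_28, c1_29, c1_30, c1_31, List.forall_mem_nil _⟩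

theorem far1 {l : ℝ} (h1 : 13 / 1024 ≤ l) (h2 : l ≤ 26 / 1024) :
    P187w.FAR l (BMM.chord 13 26 11788328 11713037 l) (25 / 1024) (0 / 1024) := by
  have h := slice_far ok1 bd1 tree1 (l := l) (by simpa [S1] using h1) (by simpa [S1] using h2)
  simpa [S1] using h

theorem ok2 : S2.ok = true := by decide +kernel

theorem bd2 : S2.bd = true := by decide +kernel

theorem tree2 : ∀ cs ∈ rootsT 2, ∃ T, walkC (leafOK S2) T cs = true := by
  rw [rootsT_two]
  simp only [List.forall_mem_cons]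
  exact ⟨c2_0, c2_1, c2_2, c2_3, c2_4, c2_5, c2_6, c2_7, c2_8, c2_9, c2_10, c2_11, c2_12, c2_13, c2_14, c2_15, c2_16, c2_17, c2_18, c2_19, c2_20, c2_21, c2_22, c2_23, c2_24, c2_25, c2_26, c2_27, c2_28, c2_29, c2_30, c2_31, List.forall_mem_nil _⟩

theorem far2 {l : ℝ} (h1 : 26 / 1024 ≤ l) (h2 : l ≤ 51 / 1024) :
    P187w.FAR l (BMM.chord 26 51 11713037 11568397 l) (25 / 1024) (0 / 1024) := by
  have h := slice_far ok2 bd2 tree2 (l := l) (by simpa [S2] using h1) (by simpa [S2] using h2)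
  simpa [S2] using h

theorem ok3 : S3.ok = true := by decide +kernel

theorem bd3 : S3.bd = true := by decide +kernel

theorem tree3 : ∀ cs ∈ rootsT 2, ∃ T, walkC (leafOK S3) T cs = true := by
  rw [rootsT_two]
  simp only [List.forall_mem_cons]
  exact ⟨c3_0, c3_1, c3_2, c3_3, c3_4, c3_5, c3_6, c3_7, c3_8, c3_9, c3_10, c3_11, c3_12, c3_13, c3_14, c3_15, c3_16, c3_17, c3_18, c3_19, c3_20, c3_21, c3_22, c3_23, c3_24, c3_25, c3_26, c3_27, c3_28, c3_29, c3_30, c3_31, List.forall_mem_nil _⟩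

theorem far3 {l : ℝ} (h1 : 51 / 1024 ≤ l) (h2 : l ≤ 77 / 1024) :
    P187w.FAR l (BMM.chord 51 77 11568397 11418297 l) (30 / 1024) (0 / 1024) := by
  have h := slice_far ok3 bd3 tree3 (l := l) (by simpa [S3] using h1) (by simpa [S3] using h2)
  simpa [S3] using h

theorem ok4 : S4.ok = true := by decide +kernel

theorem bd4 : S4.bd = true := by decide +kernel

theorem tree4 : ∀ cs ∈ rootsT 2, ∃ T, walkC (leafOK S4) T cs = true := by
  rw [rootsT_two]
  simp only [List.forall_mem_cons]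
  exact ⟨c4_0, c4_1, c4_2, c4_3, c4_4, c4_5, c4_6, c4_7, c4_8, c4_9, c4_10, c4_11, c4_12, c4_13, c4_14, c4_15, c4_16, c4_17, c4_18, c4_19, c4_20, c4_21, c4_22, c4_23, c4_24, c4_25, c4_26, c4_27, c4_28, c4_29, c4_30, c4_31, List.forall_mem_nil _⟩

theorem far4 {l : ℝ} (h1 : 77 / 1024 ≤ l) (h2 : l ≤ 102 / 1024) :
    P187w.FAR l (BMM.chord 77 102 11418297 11274427 l) (30 / 1024) (0 / 1024) := by
  have h := slice_far ok4 bd4 tree4 (l := l) (by simpa [S4] using h1) (by simpa [S4] using h2)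
  simpa [S4] using h

theorem ok5 : S5.ok = true := by decide +kernel

theorem bd5 : S5.bd = true := by decide +kernel

theorem tree5 : ∀ cs ∈ rootsT 2, ∃ T, walkC (leafOK S5) T cs = true := by
  rw [rootsT_two]
  simp only [List.forall_mem_cons]
  exact ⟨c5_0, c5_1, c5_2, c5_3, c5_4, c5_5, c5_6, c5_7, c5_8, c5_9, c5_10, c5_11, c5_12, c5_13, c5_14, c5_15, c5_16, c5_17, c5_18, c5_19, c5_20, c5_21, c5_22, c5_23, c5_24, c5_25, c5_26, c5_27, c5_28, c5_29, c5_30, c5_31, List.forall_mem_nil _⟩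

theorem far5 {l : ℝ} (h1 : 102 / 1024 ≤ l) (h2 : l ≤ 128 / 1024) :
    P187w.FAR l (BMM.chord 102 128 11274427 11125386 l) (30 / 1024) (0 / 1024) := by
  have h := slice_far ok5 bd5 tree5 (l := l) (by simpa [S5] using h1) (by simpa [S5] using h2)
  simpa [S5] using h

theorem ok6 : S6.ok = true := by decide +kernel

theorem bd6 : S6.bd = true := by decide +kernel

theorem tree6 : ∀ cs ∈ rootsT 2, ∃ T, walkC (leafOK S6) T cs = true := by
  rw [rootsT_two]
  simp only [List.forall_mem_cons]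
  exact ⟨c6_0, c6_1, c6_2, c6_3, c6_4, c6_5, c6_6, c6_7, c6_8, c6_9, c6_10, c6_11, c6_12, c6_13, c6_14, c6_15, c6_16, c6_17, c6_18, c6_19, c6_20, c6_21, c6_22, c6_23, c6_24, c6_25, c6_26, c6_27, c6_28, c6_29, c6_30, c6_31, List.forall_mem_nil _⟩

theorem far6 {l : ℝ} (h1 : 128 / 1024 ≤ l) (h2 : l ≤ 154 / 1024) :
    P187w.FAR l (BMM.chord 128 154 11125386 10976978 l) (40 / 1024) (0 / 1024) := by
  have h := slice_far ok6 bd6 tree6 (l := l) (by simpa [S6] using h1) (by simpa [S6] using h2)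
  simpa [S6] using h

theorem ok7 : S7.ok = true := by decide +kernel

theorem bd7 : S7.bd = true := by decide +kernel

theorem tree7 : ∀ cs ∈ rootsT 2, ∃ T, walkC (leafOK S7) T cs = true := by
  rw [rootsT_two]
  simp only [List.forall_mem_cons]
  exact ⟨c7_0, c7_1, c7_2, c7_3, c7_4, c7_5, c7_6, c7_7, c7_8, c7_9, c7_10, c7_11, c7_12, c7_13, c7_14, c7_15, c7_16, c7_17, c7_18, c7_19, c7_20, c7_21, c7_22, c7_23, c7_24, c7_25, c7_26, c7_27, c7_28, c7_29, c7_30, c7_31, List.forall_mem_nil _⟩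

theorem far7 {l : ℝ} (h1 : 154 / 1024 ≤ l) (h2 : l ≤ 179 / 1024) :
    P187w.FAR l (BMM.chord 154 179 10976978 10834818 l) (40 / 1024) (0 / 1024) := by
  have h := slice_far ok7 bd7 tree7 (l := l) (by simpa [S7] using h1) (by simpa [S7] using h2)
  simpa [S7] using h

theorem ok8 : S8.ok = true := by decide +kernel

theorem bd8 : S8.bd = true := by decide +kernel

theorem tree8 : ∀ cs ∈ rootsT 2, ∃ T, walkC (leafOK S8) T cs = true := by
  rw [rootsT_two]
  simp only [List.forall_mem_cons]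
  exact ⟨c8_0, c8_1, c8_2, c8_3, c8_4, c8_5, c8_6, c8_7, c8_8, c8_9, c8_10, c8_11, c8_12, c8_13, c8_14, c8_15, c8_16, c8_17, c8_18, c8_19, c8_20, c8_21, c8_22, c8_23, c8_24, c8_25, c8_26, c8_27, c8_28, c8_29, c8_30, c8_31, List.forall_mem_nil _⟩

theorem far8 {l : ℝ} (h1 : 179 / 1024 ≤ l) (h2 : l ≤ 205 / 1024) :
    P187w.FAR l (BMM.chord 179 205 10834818 10687355 l) (40 / 1024) (0 / 1024) := by
  have h := slice_far ok8 bd8 tree8 (l := l) (by simpa [S8] using h1) (by simpa [S8] using h2)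
  simpa [S8] using h

theorem ok9 : S9.ok = true := by decide +kernel

theorem bd9 : S9.bd = true := by decide +kernel

theorem tree9 : ∀ cs ∈ rootsT 2, ∃ T, walkC (leafOK S9) T cs = true := by
  rw [rootsT_two]
  simp only [List.forall_mem_cons]
  exact ⟨c9_0, c9_1, c9_2, c9_3, c9_4, c9_5, c9_6, c9_7, c9_8, c9_9, c9_10, c9_11, c9_12, c9_13, c9_14, c9_15, c9_16, c9_17, c9_18, c9_19, c9_20, c9_21, c9_22, c9_23, c9_24, c9_25, c9_26, c9_27, c9_28, c9_29, c9_30, c9_31, List.forall_mem_nil _⟩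

theorem far9 {l : ℝ} (h1 : 205 / 1024 ≤ l) (h2 : l ≤ 230 / 1024) :
    P187w.FAR l (BMM.chord 205 230 10687355 10545629 l) (45 / 1024) (0 / 1024) := by
  have h := slice_far ok9 bd9 tree9 (l := l) (by simpa [S9] using h1) (by simpa [S9] using h2)
  simpa [S9] using h

theorem ok10 : S10.ok = true := by decide +kernel

theorem bd10 : S10.bd = true := by decide +kernel

theorem tree10 : ∀ cs ∈ rootsT 2, ∃ T, walkC (leafOK S10) T cs = true := by
  rw [rootsT_two]
  simp only [List.forall_mem_cons]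
  exact ⟨c10_0, c10_1, c10_2, c10_3, c10_4, c10_5, c10_6, c10_7, c10_8, c10_9, c10_10, c10_11, c10_12, c10_13, c10_14, c10_15, c10_16, c10_17, c10_18, c10_19, c10_20, c10_21, c10_22, c10_23, c10_24, c10_25, c10_26, c10_27, c10_28, c10_29, c10_30, c10_31, List.forall_mem_nil _⟩

theorem far10 {l : ℝ} (h1 : 230 / 1024 ≤ l) (h2 : l ≤ 256 / 1024) :
    P187w.FAR l (BMM.chord 230 256 10545629 10397833 l) (45 / 1024) (0 / 1024) := by
  have h := slice_far ok10 bd10 tree10 (l := l) (by simpa [S10] using h1) (by simpa [S10] using h2)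
  simpa [S10] using h

theorem ok11 : S11.ok = true := by decide +kernel

theorem bd11 : S11.bd = true := by decide +kernel

theorem tree11 : ∀ cs ∈ rootsT 2, ∃ T, walkC (leafOK S11) T cs = true := by
  rw [rootsT_two]
  simp only [List.forall_mem_cons]
  exact ⟨c11_0, c11_1, c11_2, c11_3, c11_4, c11_5, c11_6, c11_7, c11_8, c11_9, c11_10, c11_11, c11_12, c11_13, c11_14, c11_15, c11_16, c11_17, c11_18, c11_19, c11_20, c11_21, c11_22, c11_23, c11_24, c11_25, c11_26, c11_27, c11_28, c11_29, c11_30, c11_31, List.forall_mem_nil _⟩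

theorem far11 {l : ℝ} (h1 : 256 / 1024 ≤ l) (h2 : l ≤ 282 / 1024) :
    P187w.FAR l (BMM.chord 256 282 10397833 10249024 l) (55 / 1024) (0 / 1024) := by
  have h := slice_far ok11 bd11 tree11 (l := l) (by simpa [S11] using h1) (by simpa [S11] using h2)
  simpa [S11] using h

theorem ok12 : S12.ok = true := by decide +kernel

theorem bd12 : S12.bd = true := by decide +kernel

theorem tree12 : ∀ cs ∈ rootsT 2, ∃ T, walkC (leafOK S12) T cs = true := by
  rw [rootsT_two]
  simp only [List.forall_mem_cons]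
  exact ⟨c12_0, c12_1, c12_2, c12_3, c12_4, c12_5, c12_6, c12_7, c12_8, c12_9, c12_10, c12_11, c12_12, c12_13, c12_14, c12_15, c12_16, c12_17, c12_18, c12_19, c12_20, c12_21, c12_22, c12_23, c12_24, c12_25, c12_26, c12_27, c12_28, c12_29, c12_30, c12_31, List.forall_mem_nil _⟩

theorem far12 {l : ℝ} (h1 : 282 / 1024 ≤ l) (h2 : l ≤ 307 / 1024) :
    P187w.FAR l (BMM.chord 282 307 10249024 10103747 l) (55 / 1024) (0 / 1024) := by
  have h := slice_far ok12 bd12 tree12 (l := l) (by simpa [S12] using h1) (by simpa [S12] using h2)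
  simpa [S12] using h

theorem ok13 : S13.ok = true := by decide +kernel

theorem bd13 : S13.bd = true := by decide +kernel

theorem tree13 : ∀ cs ∈ rootsT 2, ∃ T, walkC (leafOK S13) T cs = true := by
  rw [rootsT_two]
  simp only [List.forall_mem_cons]
  exact ⟨c13_0, c13_1, c13_2, c13_3, c13_4, c13_5, c13_6, c13_7, c13_8, c13_9, c13_10, c13_11, c13_12, c13_13, c13_14, c13_15, c13_16, c13_17, c13_18, c13_19, c13_20, c13_21, c13_22, c13_23, c13_24, c13_25, c13_26, c13_27, c13_28, c13_29, c13_30, c13_31, List.forall_mem_nil _⟩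

theorem far13 {l : ℝ} (h1 : 307 / 1024 ≤ l) (h2 : l ≤ 323 / 1024) :
    P187w.FAR l (BMM.chord 307 323 10103747 10009022 l) (58 / 1024) (0 / 1024) := by
  have h := slice_far ok13 bd13 tree13 (l := l) (by simpa [S13] using h1) (by simpa [S13] using h2)
  simpa [S13] using h

theorem ok14 : S14.ok = true := by decide +kernel

theorem bd14 : S14.bd = true := by decide +kernel

theorem tree14 : ∀ cs ∈ rootsT 2, ∃ T, walkC (leafOK S14) T cs = true := by
  rw [rootsT_two]
  simp only [List.forall_mem_cons]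
  exact ⟨c14_0, c14_1, c14_2, c14_3, c14_4, c14_5, c14_6, c14_7, c14_8, c14_9, c14_10, c14_11, c14_12, c14_13, c14_14, c14_15, c14_16, c14_17, c14_18, c14_19, c14_20, c14_21, c14_22, c14_23, c14_24, c14_25, c14_26, c14_27, c14_28, c14_29, c14_30, c14_31, List.forall_mem_nil _⟩

theorem far14 {l : ℝ} (h1 : 323 / 1024 ≤ l) (h2 : l ≤ 338 / 1024) :
    P187w.FAR l (BMM.chord 323 338 10009022 9918717 l) (58 / 1024) (0 / 1024) := by
  have h := slice_far ok14 bd14 tree14 (l := l) (by simpa [S14] using h1) (by simpa [S14] using h2)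
  simpa [S14] using h

theorem ok15 : S15.ok = true := by decide +kernel

theorem bd15 : S15.bd = true := by decide +kernel

theorem tree15 : ∀ cs ∈ rootsT 2, ∃ T, walkC (leafOK S15) T cs = true := by
  rw [rootsT_two]
  simp only [List.forall_mem_cons]
  exact ⟨c15_0, c15_1, c15_2, c15_3, c15_4, c15_5, c15_6, c15_7, c15_8, c15_9, c15_10, c15_11, c15_12, c15_13, c15_14, c15_15, c15_16, c15_17, c15_18, c15_19, c15_20, c15_21, c15_22, c15_23, c15_24, c15_25, c15_26, c15_27, c15_28, c15_29, c15_30, c15_31, List.forall_mem_nil _⟩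

theorem far15 {l : ℝ} (h1 : 338 / 1024 ≤ l) (h2 : l ≤ 353 / 1024) :
    P187w.FAR l (BMM.chord 338 353 9918717 9826159 l) (58 / 1024) (40 / 1024) := by
  have h := slice_far ok15 bd15 tree15 (l := l) (by simpa [S15] using h1) (by simpa [S15] using h2)
  simpa [S15] using h

theorem ok16 : S16.ok = true := by decide +kernel

theorem bd16 : S16.bd = true := by decide +kernel

theorem tree16 : ∀ cs ∈ rootsT 2, ∃ T, walkC (leafOK S16) T cs = true := by
  rw [rootsT_two]
  simp only [List.forall_mem_cons]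
  exact ⟨c16_0, c16_1, c16_2, c16_3, c16_4, c16_5, c16_6, c16_7, c16_8, c16_9, c16_10, c16_11, c16_12, c16_13, c16_14, c16_15, c16_16, c16_17, c16_18, c16_19, c16_20, c16_21, c16_22, c16_23, c16_24, c16_25, c16_26, c16_27, c16_28, c16_29, c16_30, c16_31, List.forall_mem_nil _⟩

theorem far16 {l : ℝ} (h1 : 353 / 1024 ≤ l) (h2 : l ≤ 369 / 1024) :
    P187w.FAR l (BMM.chord 353 369 9826159 9721984 l) (58 / 1024) (40 / 1024) := by
  have h := slice_far ok16 bd16 tree16 (l := l) (by simpa [S16] using h1) (by simpa [S16] using h2)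
  simpa [S16] using h

theorem ok17 : S17.ok = true := by decide +kernel

theorem bd17 : S17.bd = true := by decide +kernel

theorem tree17 : ∀ cs ∈ rootsT 2, ∃ T, walkC (leafOK S17) T cs = true := by
  rw [rootsT_two]
  simp only [List.forall_mem_cons]
  exact ⟨c17_0, c17_1, c17_2, c17_3, c17_4, c17_5, c17_6, c17_7, c17_8, c17_9, c17_10, c17_11, c17_12, c17_13, c17_14, c17_15, c17_16, c17_17, c17_18, c17_19, c17_20, c17_21, c17_22, c17_23, c17_24, c17_25, c17_26, c17_27, c17_28, c17_29, c17_30, c17_31, List.forall_mem_nil _⟩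

theorem far17 {l : ℝ} (h1 : 369 / 1024 ≤ l) (h2 : l ≤ 376 / 1024) :
    P187w.FAR l (BMM.chord 369 376 9721984 9673686 l) (58 / 1024) (40 / 1024) := by
  have h := slice_far ok17 bd17 tree17 (l := l) (by simpa [S17] using h1) (by simpa [S17] using h2)
  simpa [S17] using h

theorem ok18 : S18.ok = true := by decide +kernel

theorem bd18 : S18.bd = true := by decide +kernel

theorem tree18 : ∀ cs ∈ rootsT 2, ∃ T, walkC (leafOK S18) T cs = true := by
  rw [rootsT_two]
  simp only [List.forall_mem_cons]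
  exact ⟨c18_0, c18_1, c18_2, c18_3, c18_4, c18_5, c18_6, c18_7, c18_8, c18_9, c18_10, c18_11, c18_12, c18_13, c18_14, c18_15, c18_16, c18_17, c18_18, c18_19, c18_20, c18_21, c18_22, c18_23, c18_24, c18_25, c18_26, c18_27, c18_28, c18_29, c18_30, c18_31, List.forall_mem_nil _⟩

theorem far18 {l : ℝ} (h1 : 376 / 1024 ≤ l) (h2 : l ≤ 377 / 1024) :
    P187w.FAR l (BMM.chord 376 377 9673686 9662805 l) (58 / 1024) (40 / 1024) := by
  have h := slice_far ok18 bd18 tree18 (l := l) (by simpa [S18] using h1) (by simpa [S18] using h2)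
  simpa [S18] using h

end Pool.Agent.BFD
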