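import Pool.Agent.Lib.BFD.Far

/-!
# The far zone on the eighteen slices of the final theorem
-/

set_option autoImplicit false

namespace Pool.Agent.BFD

open Pool.Agent.BFC

theorem FAR_mono {l R s1 s2 s2' : ℝ} (h : s2 ≤ s2') (hF : P187w.FAR l R s1 s2) :
    P187w.FAR l R s1 s2' :=
  fun f hf α h0 h1 => hF f hf α h0 (by linarith)

/-- slice number 0 -/
theorem FAR_0 {l : ℝ} (h1 : 0 / 1024 ≤ l) (h2 : l ≤ 26 / 1024) :
    P187w.FAR l (BMM.chord 0 26 11863619 11713037 l) (25 / 1024) (40 / 1024) := by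
  rcases le_total l (13 / 1024) with h | h
  · have e : BMM.chord 0 26 11863619 11713037 l = BMM.chord 0 13 11863619 11788328 l := by
      unfold BMM.chord
      ring
    rw [e]
    exact FAR_mono (by norm_num) (far0 h1 h)
  · have e : BMM.chord 0 26 11863619 11713037 l = BMM.chord 13 26 11788328 11713037 l := by
      unfold BMM.chord
      ring
    rw [e]
    exact FAR_mono (by norm_num) (far1 h h2)

/-- slice number 1 -/
theorem FAR_1 {l : ℝ} (h1 : 26 / 1024 ≤ l) (h2 : l ≤ 51 / 1024) :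
    P187w.FAR l (BMM.chord 26 51 11713037 11568397 l) (25 / 1024) (40 / 1024) :=
  FAR_mono (by norm_num) (far2 h1 h2)

/-- slice number 2 -/
theorem FAR_2 {l : ℝ} (h1 : 51 / 1024 ≤ l) (h2 : l ≤ 77 / 1024) :
    P187w.FAR l (BMM.chord 51 77 11568397 11418297 l) (30 / 1024) (40 / 1024) :=
  FAR_mono (by norm_num) (far3 h1 h2)

/-- slice number 3 -/
theorem FAR_3 {l : ℝ} (h1 : 77 / 1024 ≤ l) (h2 : l ≤ 102 / 1024) :
    P187w.FAR l (BMM.chord 77 102 11418297 11274427 l) (30 / 1024) (40 / 1024) :=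
  FAR_mono (by norm_num) (far4 h1 h2)

/-- slice number 4 -/
theorem FAR_4 {l : ℝ} (h1 : 102 / 1024 ≤ l) (h2 : l ≤ 128 / 1024) :
    P187w.FAR l (BMM.chord 102 128 11274427 11125386 l) (30 / 1024) (40 / 1024) :=
  FAR_mono (by norm_num) (far5 h1 h2)

/-- slice number 5 -/
theorem FAR_5 {l : ℝ} (h1 : 128 / 1024 ≤ l) (h2 : l ≤ 154 / 1024) :
    P187w.FAR l (BMM.chord 128 154 11125386 10976978 l) (40 / 1024) (40 / 1024) :=
  FAR_mono (by norm_num) (far6 h1 h2)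

/-- slice number 6 -/
theorem FAR_6 {l : ℝ} (h1 : 154 / 1024 ≤ l) (h2 : l ≤ 179 / 1024) :
    P187w.FAR l (BMM.chord 154 179 10976978 10834818 l) (40 / 1024) (40 / 1024) :=
  FAR_mono (by norm_num) (far7 h1 h2)

/-- slice number 7 -/
theorem FAR_7 {l : ℝ} (h1 : 179 / 1024 ≤ l) (h2 : l ≤ 205 / 1024) :
    P187w.FAR l (BMM.chord 179 205 10834818 10687355 l) (40 / 1024) (40 / 1024) :=
  FAR_mono (by norm_num) (far8 h1 h2)

/-- slice number 8 -/
theorem FAR_8 {l : ℝ} (h1 : 205 / 1024 ≤ l) (h2 : l ≤ 230 / 1024) :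
    P187w.FAR l (BMM.chord 205 230 10687355 10545629 l) (45 / 1024) (40 / 1024) :=
  FAR_mono (by norm_num) (far9 h1 h2)

/-- slice number 9 -/
theorem FAR_9 {l : ℝ} (h1 : 230 / 1024 ≤ l) (h2 : l ≤ 256 / 1024) :
    P187w.FAR l (BMM.chord 230 256 10545629 10397833 l) (45 / 1024) (40 / 1024) :=
  FAR_mono (by norm_num) (far10 h1 h2)

/-- slice number 10 -/
theorem FAR_10 {l : ℝ} (h1 : 256 / 1024 ≤ l) (h2 : l ≤ 282 / 1024) :
    P187w.FAR l (BMM.chord 256 282 10397833 10249024 l) (55 / 1024) (40 / 1024) :=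
  FAR_mono (by norm_num) (far11 h1 h2)

/-- slice number 11 -/
theorem FAR_11 {l : ℝ} (h1 : 282 / 1024 ≤ l) (h2 : l ≤ 307 / 1024) :
    P187w.FAR l (BMM.chord 282 307 10249024 10103747 l) (55 / 1024) (40 / 1024) :=
  FAR_mono (by norm_num) (far12 h1 h2)

/-- slice number 12 -/
theorem FAR_12 {l : ℝ} (h1 : 307 / 1024 ≤ l) (h2 : l ≤ 323 / 1024) :
    P187w.FAR l (BMM.chord 307 323 10103747 10009022 l) (58 / 1024) (40 / 1024) :=
  FAR_mono (by norm_num) (far13 h1 h2)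

/-- slice number 13 -/
theorem FAR_13 {l : ℝ} (h1 : 323 / 1024 ≤ l) (h2 : l ≤ 338 / 1024) :
    P187w.FAR l (BMM.chord 323 338 10009022 9918717 l) (58 / 1024) (40 / 1024) :=
  FAR_mono (by norm_num) (far14 h1 h2)

/-- slice number 14 -/
theorem FAR_14 {l : ℝ} (h1 : 338 / 1024 ≤ l) (h2 : l ≤ 353 / 1024) :
    P187w.FAR l (BMM.chord 338 353 9918717 9826159 l) (58 / 1024) (40 / 1024) :=
  FAR_mono (by norm_num) (far15 h1 h2)

/-- slice number 15 -/
theorem FAR_15 {l : ℝ} (h1 : 353 / 1024 ≤ l) (h2 : l ≤ 369 / 1024) :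
    P187w.FAR l (BMM.chord 353 369 9826159 9721984 l) (58 / 1024) (40 / 1024) :=
  FAR_mono (by norm_num) (far16 h1 h2)

/-- slice number 16 -/
theorem FAR_16 {l : ℝ} (h1 : 369 / 1024 ≤ l) (h2 : l ≤ 376 / 1024) :
    P187w.FAR l (BMM.chord 369 376 9721984 9673686 l) (58 / 1024) (40 / 1024) :=
  FAR_mono (by norm_num) (far17 h1 h2)

/-- slice number 17 -/
theorem FAR_17 {l : ℝ} (h1 : 376 / 1024 ≤ l) (h2 : l ≤ 377 / 1024) :
    P187w.FAR l (BMM.chord 376 377 9673686 9662805 l) (58 / 1024) (40 / 1024) :=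
  FAR_mono (by norm_num) (far18 h1 h2)

end Pool.Agent.BFD
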